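import Mathlib
import Pool.Agent.TH932.S2.G.Gc

set_option autoImplicit false

/-!
# Cycles of generalized Collatz maps which meet few residue classes modulo the powers of `d`
-/

namespace Pool.Agent.Results.MP_f2ed2a_nt.CyclesInFewClasses

open Pool.Agent.TH932.S2.G

/-- The generalized Collatz map `T(x) = (m_i x - r_i) / d` for `x ≡ i (mod d)`. -/
def T (d : ℕ) (m r : ℤ → ℤ) (x : ℤ) : ℤ := (m (x % d) * x - r (x % d)) / d

/-- `Z` is a cycle of `f`. -/
def IsCycle (f : ℤ → ℤ) (Z : Finset ℤ) : Prop :=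
  ∃ (x : ℤ) (p : ℕ), 1 ≤ p ∧ f^[p] x = x ∧ Z = (Finset.range p).image fun i => f^[i] x

/-- the number of residue classes modulo `d ^ n` which contain an element of `Z` -/
noncomputable def classes (d : ℕ) (Z : Finset ℤ) (n : ℕ) : ℕ :=
  (Z.image fun y : ℤ => ((y : ℤ) : ZMod (d ^ n))).card

lemma closed {f : ℤ → ℤ} {Z : Finset ℤ} (hZ : IsCycle f Z) {x : ℤ} (hx : x ∈ Z) (i : ℕ) :
    f^[i] x ∈ Z := by
  classical
  obtain ⟨y, p, hp, hy, rfl⟩ := hZ
  rw [Finset.mem_image] at hx ⊢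
  obtain ⟨j, hj, rfl⟩ := hx
  refine ⟨(i + j) % p, Finset.mem_range.2 (Nat.mod_lt _ hp), ?_⟩
  rw [← Function.iterate_add_apply]
  have h1 : (i + j) % p + p * ((i + j) / p) = i + j := Nat.mod_add_div _ _
  have h2 : f^[p * ((i + j) / p)] y = y := by
    rw [Function.iterate_mul]; exact Function.iterate_fixed hy _
  calc f^[(i + j) % p] y = f^[(i + j) % p] (f^[p * ((i + j) / p)] y) := by rw [h2]
    _ = f^[i + j] y := by rw [← Function.iterate_add_apply, h1]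

lemma per {f : ℤ → ℤ} {Z : Finset ℤ} (hZ : IsCycle f Z) {x : ℤ} (hx : x ∈ Z) :
    ∃ p : ℕ, 1 ≤ p ∧ f^[p] x = x := by
  classical
  obtain ⟨y, p, hp, hy, rfl⟩ := hZ
  rw [Finset.mem_image] at hx
  obtain ⟨j, hj, rfl⟩ := hx
  refine ⟨p, hp, ?_⟩
  rw [← Function.iterate_add_apply, add_comm, Function.iterate_add_apply, hy]

lemma reach {f : ℤ → ℤ} {Z : Finset ℤ} (hZ : IsCycle f Z) {x y : ℤ} (hx : x ∈ Z) (hy : y ∈ Z) :
    ∃ i : ℕ, f^[i] x = y := by
  classical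
  obtain ⟨z, p, hp, hz, rfl⟩ := hZ
  rw [Finset.mem_image] at hx hy
  obtain ⟨i, hi, rfl⟩ := hx
  obtain ⟨j, hj, rfl⟩ := hy
  rw [Finset.mem_range] at hi hj
  refine ⟨p - i + j, ?_⟩
  rw [← Function.iterate_add_apply, show p - i + j + i = j + p by omega,
    Function.iterate_add_apply, hz]

lemma card_le {f : ℤ → ℤ} {Z : Finset ℤ} (hZ : IsCycle f Z) {x : ℤ} (hx : x ∈ Z) {k : ℕ}
    (hk : 1 ≤ k) (hxk : f^[k] x = x) : Z.card ≤ k := by
  classical
  have h1 : Z ⊆ (Finset.range k).image fun i => f^[i] x := by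
    intro y hy
    obtain ⟨i, rfl⟩ := reach hZ hx hy
    rw [Finset.mem_image]
    refine ⟨i % k, Finset.mem_range.2 (Nat.mod_lt _ hk), ?_⟩
    have h1 : i % k + k * (i / k) = i := Nat.mod_add_div _ _
    have h2 : f^[k * (i / k)] x = x := by
      rw [Function.iterate_mul]; exact Function.iterate_fixed hxk _
    calc f^[i % k] x = f^[i % k] (f^[k * (i / k)] x) := by rw [h2]
      _ = f^[i] x := by rw [← Function.iterate_add_apply, h1]
  refine (Finset.card_le_card h1).trans (Finset.card_image_le.trans ?_)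
  rw [Finset.card_range]

lemma cls_le {d : ℕ} (hd : 2 ≤ d) {f : ℤ → ℤ} {Z : Finset ℤ} (hZ : IsCycle f Z) {x : ℤ}
    (hx : x ∈ Z) (n : ℕ) : Gc.clsAll d f x n ≤ classes d Z n := by
  classical
  unfold Gc.clsAll classes
  rw [← Set.ncard_coe_finset]
  apply Set.ncard_le_ncard _ (Finset.finite_toSet _)
  rintro _ ⟨i, rfl⟩
  rw [Finset.coe_image]
  exact ⟨_, closed hZ hx i, rfl⟩

/-- **Result.** Let `T` be of relatively prime type with multipliers which are powers (with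
exponents `≥ 0`) of one integer `q ≥ 2` coprime to `d`, and let `A` be a real number.

(1) There are only finitely many cycles `Z` of `T` such that for every `n ≥ 1` the elements of `Z`
lie in at most `A n` residue classes modulo `d ^ n`.

(2) There is `K` such that for all `1 ≤ M ≤ N` and all cycles `Z` which contain an element `x` with
`|x| ≤ 2 ^ N`: if for `M ≤ n ≤ K N` the elements of `Z` lie in at most `A n` residue classes modulo
`d ^ n`, then `Z` has at most `K M` elements and they have absolute value at most `2 ^ (K M)`.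

(3) There is `K` such that for all `N ≥ K` and all cycles `Z` which contain an element `x` with
`|x| ≤ 2 ^ N`: if the elements of `Z` lie in at most `A N` residue classes modulo `d ^ N`, then `Z`
has at most `N ^ K` elements and they have absolute value at most `2 ^ (K N)`. -/
theorem result (d q : ℕ) (hd : 2 ≤ d) (hq : 2 ≤ q) (hco : Nat.Coprime q d) (m r : ℤ → ℤ)
    (hm : ∀ i : ℤ, 0 ≤ i → i < d → ∃ s : ℕ, m i = (q : ℤ) ^ s)
    (hr : ∀ i : ℤ, 0 ≤ i → i < d → (d : ℤ) ∣ m i * i - r i) (A : ℝ) :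
    {Z : Finset ℤ | IsCycle (T d m r) Z ∧ ∀ n : ℕ, 1 ≤ n → (classes d Z n : ℝ) ≤ A * n}.Finite ∧
    (∃ K : ℕ, ∀ (Z : Finset ℤ) (M N : ℕ), IsCycle (T d m r) Z → 1 ≤ M → M ≤ N →
      (∃ x ∈ Z, |x| ≤ 2 ^ N) → (∀ n : ℕ, M ≤ n → n ≤ K * N → (classes d Z n : ℝ) ≤ A * n) →
      Z.card ≤ K * M ∧ ∀ y ∈ Z, |y| ≤ 2 ^ (K * M)) ∧
    (∃ K : ℕ, ∀ (Z : Finset ℤ) (N : ℕ), IsCycle (T d m r) Z → K ≤ N →
      (∃ x ∈ Z, |x| ≤ 2 ^ N) → (classes d Z N : ℝ) ≤ A * N →
      Z.card ≤ N ^ K ∧ ∀ y ∈ Z, |y| ≤ 2 ^ (K * N)) := by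
  classical
  obtain ⟨s, hs⟩ : ∃ s : ℤ → ℕ, ∀ i : ℤ, 0 ≤ i → i < d → m i = (q : ℤ) ^ s i := by
    refine ⟨fun i => if h : ∃ s : ℕ, m i = (q : ℤ) ^ s then h.choose else 0, fun i h0 h1 => ?_⟩
    have h := hm i h0 h1
    simp only
    rw [dif_pos h]
    exact h.choose_spec
  obtain ⟨δ, β, hG⟩ : ∃ (δ : ZMod d → ℕ) (β : ZMod d → ℤ), ∀ x : ℤ,
      (d : ℤ) * T d m r x = (q : ℤ) ^ δ (x : ZMod d) * x + β (x : ZMod d) :=
    ⟨fun a => s (a.val : ℤ), fun a => -r (a.val : ℤ), fun x => Gc.rec_of hd s hs hr x⟩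
  have hblk : ∀ {Z : Finset ℤ}, IsCycle (T d m r) Z → ∀ {x : ℤ}, x ∈ Z → ∀ h n : ℕ,
      Gc.blk d (T d m r) x h n ≤ classes d Z n := by
    intro Z hZ x hx h n
    have : NeZero d := ⟨by omega⟩
    have h1 : Gc.blk d (T d m r) x h n ≤ Gc.blkAll d (T d m r) x n := by
      unfold Gc.blk Gc.blkAll
      exact Set.ncard_le_ncard (Set.image_subset_range _ _) (Set.toFinite _)
    exact h1.trans ((Gc.blkAll_le_clsAll hd hG x n).trans (cls_le hd hZ hx n))
  refine ⟨?_, ?_, ?_⟩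
  · have hfin := Gc.fin hd hq hco hG A
    refine (Set.Finite.finite_subsets hfin).preimage (f := fun Z : Finset ℤ => (Z : Set ℤ))
      (fun a _ b _ h => by simpa using h) |>.subset ?_
    rintro Z ⟨hZ, hcx⟩ x hx
    refine ⟨per hZ hx, fun n hn => le_trans ?_ (hcx n hn)⟩
    exact_mod_cast (Gc.blkAll_le_clsAll hd hG x n).trans (cls_le hd hZ hx n)
  · obtain ⟨K, h⟩ := Gc.all hd hq hco hG A
    refine ⟨K, fun Z M N hZ hM hMN ⟨x, hx, hxN⟩ hcx => ?_⟩
    obtain ⟨i, hi, ⟨k, hk1, hk2, hk⟩, hb⟩ := h x M N hM hMN hxN (fun n h1 h2 => by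
      refine le_trans ?_ (hcx n h1 h2)
      exact_mod_cast hblk hZ hx (K * N) n)
    have hz := closed hZ hx i
    refine ⟨(card_le hZ hz hk1 hk).trans hk2, fun y hy => ?_⟩
    obtain ⟨j, rfl⟩ := reach hZ hz hy
    exact hb j
  · obtain ⟨K, h⟩ := Gc.one hd hq hco hG A
    refine ⟨K, fun Z N hZ hN ⟨x, hx, hxN⟩ hcx => ?_⟩
    obtain ⟨⟨i, hi, k, hk1, hk2, hk⟩, hb⟩ := h x N hN hxN (by
      refine le_trans ?_ hcx
      exact_mod_cast hblk hZ hx (N ^ K) N)
    refine ⟨(card_le hZ (closed hZ hx i) hk1 hk).trans hk2, fun y hy => ?_⟩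
    obtain ⟨j, rfl⟩ := reach hZ hx hy
    exact hb j

end Pool.Agent.Results.MP_f2ed2a_nt.CyclesInFewClasses
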